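import Mathlib
import Pool.Agent.Y218.QMe

set_option autoImplicit false

/-!
# MP_82c165_ag: the moduli space of quadratic endomorphisms of projective space is rational

Problem: for all `N ≥ 1`, `d ≥ 2`, is `M^N_d = End^N_d / PGL_{N+1}` rational?

We prove it for `d = 2` and every `N ≥ 1`: the field of rational functions of `M^N_2` is purely
transcendental over the ground field.

A quadratic self map of `P^N` is `x ↦ mul T x x`, where `T : Idx (N + 1) → K` is the family of the
structure constants of a symmetric bilinear map `mul T` (`bil T` as a bilinear map); as the
characteristic is zero this is the same as its family of coefficients, up to the factors `2`.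
`g ∈ GL_{N+1}(K)` acts by `mul (act g T) x y = g (mul T (g⁻¹ x) (g⁻¹ y))` (theorem `bil_act`), which
is conjugation of the quadratic map; the scalar `c` acts as `T ↦ c⁻¹ T`. Hence the rational functions in the coefficients
which are invariant under all `g` (`invField K (N + 1)`) are those which are homogeneous of degree
`0` (that is, are rational functions on the space `P^M` of coefficients) and invariant under
`PGL_{N+1}`: over `K = ℂ` they form the field of rational functions of `M^N_2`.

Method: for general `T` let `D x = tr (y ↦ bil T x y)`, let `v` be the vector with
`D (bil T v y) = D y` for all `y`, and take the frame `v, L v, L² v, …, L^N v` where `L = bil T v`.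
The structure constants in this frame satisfy *linear* equations, and conversely every general `T`
which satisfies them has the standard basis as its frame; so a linear slice meets each general orbit
in exactly one point.
-/

namespace Pool.Agent.Results.MP_82c165_ag.QuadraticMaps

open Pool.Agent.Y218.QM

/-- **The moduli space of quadratic endomorphisms of `P^N` is rational**, for every `N ≥ 1`: the
field of the rational functions in the coefficients of a quadratic self map of `P^N` which are
invariant under all changes of coordinates is purely transcendental. -/
theorem result {K : Type*} [Field K] [CharZero K] {N : ℕ} (hN : 1 ≤ N) :
    IsRational (invField K (N + 1)) :=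
  rational hN

end Pool.Agent.Results.MP_82c165_ag.QuadraticMaps
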